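import Pool.Agent.H27.L1.H62.GHY.SPLB

/-!
Row SPL of the board ghy, part C: the mass of the bump functions.
-/

set_option autoImplicit false

namespace Pool.Agent.H27.L1.H62.GHY

open MeasureTheory Filter
open Pool.Agent.H27.L1.H34.GM Pool.Agent.H27.L1.H34.GZ Pool.Agent.H27.L1.H34.GU Pool.Agent.H27.L1.H34.GA
open Pool.Agent.H27.L1.H90.GA (sz_nn le_sz sz_le sz_mul inv_near det_inv_ne meas_F meas_F1 fin_D int_sq
  det_ne_D)
open Pool.Agent.H27.L1.H46.GU (cs cR_det fz wd fz_eq fz_meas fn_meas wd_meas prod_meas dom_det)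
open Pool.Agent.H27.L1.H91.GA (csw tr tr_meas fz_tr rrn_inv rrn_scal rrn_mass inv_det)
open Pool.Agent.H27.L1.H74.GA (tg_bd det_nz)
open scoped ENNReal

theorem br_norm {m : ℕ} {χ : ℝ → ℝ} (hχ : Prof χ) (δ : ℝ) (z : Mat m) :
    ‖br χ δ z‖ = br χ δ z := Real.norm_of_nonneg (hχ.lo _)

/-- the small neighbourhood -/
def nb (m : ℕ) (r : ℝ) : Set (V m) := {z | sf (mt z) ≤ r ^ 2}

theorem sf_cont (m : ℕ) : Continuous (fun z : V m => sf (mt z)) := by
  unfold sf
  refine continuous_finsetSum _ fun i _ => continuous_finsetSum _ fun j _ => ?_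
  have h1 : Continuous (fun z : V m => (mt z : Mat m)) := th1_cmt
  have h2 : Continuous (fun z : V m => ((mt z).transpose * mt z - 1 : Mat m)) :=
    (h1.matrix_transpose.matrix_mul h1).sub continuous_const
  exact (h2.matrix_elem i j).pow 2

theorem nb_meas (m : ℕ) (r : ℝ) : MeasurableSet (nb m r) :=
  measurableSet_le (sf_cont m).measurable measurable_const

theorem sf_one (m : ℕ) : sf (1 : Mat m) = 0 := by
  unfold sf
  rw [Matrix.transpose_one, Matrix.one_mul, sub_self]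
  simp

/-- the neighbourhoods have positive measure -/
theorem nb_pos {m : ℕ} {r : ℝ} (hr : 0 < r) : hm m (nb m r) ≠ 0 := by
  intro h
  have h1 : Continuous (fun z : V m => (mt z : Mat m)) := th1_cmt
  set U : Set (V m) := {z | sf (mt z) < r ^ 2 ∧ (mt z).det ≠ 0} with hU
  have hUo : IsOpen U :=
    (isOpen_lt (sf_cont m) continuous_const).inter (isOpen_ne_fun h1.matrix_det continuous_const)
  have hUn : U.Nonempty := by
    refine ⟨fun i j => (1 : Mat m) i j, ?_, ?_⟩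
    · show sf (1 : Mat m) < r ^ 2
      rw [sf_one]
      positivity
    · show (1 : Mat m).det ≠ 0
      rw [Matrix.det_one]
      exact one_ne_zero
  have h2 : hm m U = 0 := measure_mono_null (fun z hz => le_of_lt hz.1) h
  have hdm : Measurable (fun z : V m => ENNReal.ofReal ((|(mt z).det| ^ m)⁻¹)) :=
    (((h1.matrix_det).abs.pow m).measurable.inv).ennreal_ofReal
  unfold hm at h2
  rw [withDensity_apply_eq_zero hdm] at h2
  have h3 : {z : V m | ENNReal.ofReal ((|(mt z).det| ^ m)⁻¹) ≠ 0} ∩ U = U := by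
    refine Set.inter_eq_right.2 fun z hz => ?_
    have h4 : 0 < |(mt z).det| := abs_pos.2 hz.2
    show ENNReal.ofReal ((|(mt z).det| ^ m)⁻¹) ≠ 0
    rw [Ne, ENNReal.ofReal_eq_zero, not_le]
    positivity
  rw [h3] at h2
  exact (hUo.measure_pos volume hUn).ne' h2

/-- the compact sets -/
theorem cc_meas (hM : T_MSR) (m : ℕ) (c : ℝ) :
    MeasurableSet {z : V m | sz (mt z) ≤ c ∧ c⁻¹ ≤ |(mt z).det|} := by
  obtain ⟨-, hdet, -, hszm, -, -, -, -⟩ := hM.1 m
  exact (measurableSet_le hszm measurable_const).inter (measurableSet_le measurable_const hdet.norm)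

/-- the neighbourhoods have finite measure -/
theorem nb_fin (hH : T_HAR) {m : ℕ} (hm1 : 1 ≤ m) {χ : ℝ → ℝ} (hχ : Prof χ) {δ : ℝ} (hδ : 0 < δ)
    (hk : Tst m (bump m χ δ)) : hm m (nb m (δ / 4)) < ⊤ := by
  obtain ⟨c, hc, hs⟩ := hk.supp
  refine (measure_mono fun z hz => ?_).trans_lt ((hH m hm1).2.2.2 c hc)
  refine hs (mt z) ?_
  rw [bump_br, br_one hχ hδ hz]
  simp

/-- the mass of the bump function -/
theorem br_int (hM : T_MSR) (hH : T_HAR) {m : ℕ} (hm1 : 1 ≤ m) {χ : ℝ → ℝ} (hχ : Prof χ) {δ : ℝ}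
    (hk : Tst m (bump m χ δ)) :
    Integrable (fun z : V m => br χ δ (mt z)) (hm m) := by
  obtain ⟨c, hc, hs⟩ := hk.supp
  obtain ⟨-, -, -, -, -, -, -, hcm⟩ := hM.1 m
  have hKf : hm m {z : V m | sz (mt z) ≤ c ∧ c⁻¹ ≤ |(mt z).det|} < ⊤ := (hH m hm1).2.2.2 c hc
  have hi : Integrable ({z : V m | sz (mt z) ≤ c ∧ c⁻¹ ≤ |(mt z).det|}.indicator
      (fun _ : V m => (1 : ℝ))) (hm m) := by
    rw [integrable_indicator_iff (cc_meas hM m c)]
    exact integrableOn_const hKf.ne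
  have hmb : Measurable (fun z : V m => br χ δ (mt z)) := by
    have h1 := Complex.measurable_re.comp (hcm _ hk.cont)
    exact h1
  refine hi.mono' hmb.aestronglyMeasurable (Eventually.of_forall fun z => ?_)
  by_cases hz : br χ δ (mt z) = 0
  · rw [hz, norm_zero]
    exact Set.indicator_nonneg (fun _ _ => zero_le_one) _
  · have hzK : z ∈ {z : V m | sz (mt z) ≤ c ∧ c⁻¹ ≤ |(mt z).det|} := by
      refine hs (mt z) ?_
      rw [bump_br]
      exact_mod_cast hz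
    rw [Set.indicator_of_mem hzK, br_norm hχ]
    exact hχ.hi _

theorem br_mass (hM : T_MSR) (hH : T_HAR) {m : ℕ} (hm1 : 1 ≤ m) {χ : ℝ → ℝ} (hχ : Prof χ) {δ : ℝ}
    (hδ : 0 < δ) (hk : Tst m (bump m χ δ)) :
    (hm m (nb m (δ / 4))).toReal ≤ ∫ z : V m, br χ δ (mt z) ∂(hm m) := by
  have h1 : (hm m (nb m (δ / 4))).toReal = ∫ z : V m, (nb m (δ / 4)).indicator 1 z ∂(hm m) := by
    rw [integral_indicator_one (nb_meas m _)]
    rfl
  rw [h1]
  refine integral_mono_of_nonneg (Eventually.of_forall fun z => ?_)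
    (br_int hM hH hm1 hχ hk) (Eventually.of_forall fun z => ?_)
  · exact Set.indicator_nonneg (fun _ _ => zero_le_one) _
  · show (nb m (δ / 4)).indicator (1 : V m → ℝ) z ≤ br χ δ (mt z)
    by_cases hz : z ∈ nb m (δ / 4)
    · rw [Set.indicator_of_mem hz, br_one hχ hδ hz]
      exact le_rfl
    · rw [Set.indicator_of_notMem hz]
      exact hχ.lo _

/-- integrability of the spherical transform -/
theorem bp_int (hM : T_MSR) (hH : T_HAR) (hPC : T_PWC) {m : ℕ} (hm1 : 1 ≤ m) {χ : ℝ → ℝ}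
    (hχ : Prof χ) {δ : ℝ} (hk : Tst m (bump m χ δ)) {mu : Fin m → ℂ} {A : ℝ}
    (hA : ∀ z : Mat m, br χ δ z ≠ 0 → ‖pw mu z‖ ≤ A) :
    Integrable (fun z : V m => bump m χ δ (mt z) * pw mu (mt z)) (hm m) := by
  obtain ⟨c, hc, hs⟩ := hk.supp
  obtain ⟨-, -, -, -, -, -, -, hcm⟩ := hM.1 m
  set K : Set (V m) := {z : V m | sz (mt z) ≤ c ∧ c⁻¹ ≤ |(mt z).det|} with hK
  have hKm : MeasurableSet K := cc_meas hM m c
  have hKf : hm m K < ⊤ := (hH m hm1).2.2.2 c hc
  have hKd : K ⊆ {z | (mt z).det ≠ 0} := by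
    intro z hz h0
    have h1 := hz.2
    rw [h0, abs_zero] at h1
    have : 0 < c⁻¹ := by positivity
    linarith
  have hsup : Function.support (fun z : V m => bump m χ δ (mt z) * pw mu (mt z)) ⊆ K := by
    intro z hz
    exact hs (mt z) (left_ne_zero_of_mul hz)
  rw [← integrableOn_iff_integrable_of_support_subset hsup]
  have hfm : IsFiniteMeasure ((hm m).restrict K) := ⟨by rwa [Measure.restrict_apply_univ]⟩
  refine Integrable.of_bound ((hcm _ hk.cont).aestronglyMeasurable.mul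
    (th1_pwmeas hPC hm1 mu hKm hKd)) (max A 0) (Eventually.of_forall fun z => ?_)
  by_cases hz : br χ δ (mt z) = 0
  · show ‖bump m χ δ (mt z) * pw mu (mt z)‖ ≤ _
    rw [bump_br, hz]
    simp
  · show ‖bump m χ δ (mt z) * pw mu (mt z)‖ ≤ _
    rw [norm_mul]
    have h1 : ‖bump m χ δ (mt z)‖ ≤ 1 := by
      rw [bump_br, Complex.norm_real, br_norm hχ]
      exact hχ.hi _
    calc ‖bump m χ δ (mt z)‖ * ‖pw mu (mt z)‖ ≤ 1 * A :=
          mul_le_mul h1 (hA _ hz) (norm_nonneg _) zero_le_one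
      _ ≤ max A 0 := by rw [one_mul]; exact le_max_left _ _

/-- the lower bound for the spherical transform -/
theorem khat_lb (hM : T_MSR) (hH : T_HAR) (hPC : T_PWC) {m : ℕ} (hm1 : 1 ≤ m) {χ : ℝ → ℝ}
    (hχ : Prof χ) {δ : ℝ} (hδ : 0 < δ) (hk : Tst m (bump m χ δ)) {mu : Fin m → ℂ}
    (hA : ∀ z : Mat m, br χ δ z ≠ 0 → ‖pw mu z - 1‖ ≤ 1 / 2) :
    (hm m (nb m (δ / 4))).toReal / 2 ≤
      ‖∫ z : V m, bump m χ δ (mt z) * pw mu (mt z) ∂(hm m)‖ := by
  have i1 := br_int hM hH hm1 hχ hk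
  have i2 := bp_int hM hH hPC hm1 hχ hk (mu := mu) (A := 3 / 2) (fun z hz => by
    have h1 := hA z hz
    have h2 : pw mu z = (pw mu z - 1) + 1 := by ring
    rw [h2]
    refine (norm_add_le _ _).trans ?_
    rw [norm_one]
    linarith)
  have i3 : Integrable (fun z : V m => ((br χ δ (mt z) : ℝ) : ℂ)) (hm m) := i1.ofReal
  have h1 := br_mass hM hH hm1 hχ hδ hk
  have e1 : ∫ z : V m, (bump m χ δ (mt z) * pw mu (mt z) - ((br χ δ (mt z) : ℝ) : ℂ)) ∂(hm m) =
      ∫ z : V m, bump m χ δ (mt z) * pw mu (mt z) ∂(hm m) -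
        ((∫ z : V m, br χ δ (mt z) ∂(hm m) : ℝ) : ℂ) := by
    rw [integral_sub i2 i3, integral_complex_ofReal]
  have h2 : ‖∫ z : V m, (bump m χ δ (mt z) * pw mu (mt z) - ((br χ δ (mt z) : ℝ) : ℂ))
      ∂(hm m)‖ ≤ ∫ z : V m, 1 / 2 * br χ δ (mt z) ∂(hm m) := by
    refine norm_integral_le_of_norm_le (i1.const_mul _) (Eventually.of_forall fun z => ?_)
    by_cases hz : br χ δ (mt z) = 0
    · show ‖bump m χ δ (mt z) * pw mu (mt z) - ((br χ δ (mt z) : ℝ) : ℂ)‖ ≤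
        1 / 2 * br χ δ (mt z)
      rw [bump_br, hz]
      simp
    · show ‖bump m χ δ (mt z) * pw mu (mt z) - ((br χ δ (mt z) : ℝ) : ℂ)‖ ≤
        1 / 2 * br χ δ (mt z)
      have e2 : bump m χ δ (mt z) * pw mu (mt z) - ((br χ δ (mt z) : ℝ) : ℂ) =
          ((br χ δ (mt z) : ℝ) : ℂ) * (pw mu (mt z) - 1) := by
        rw [bump_br]
        ring
      rw [e2, norm_mul, Complex.norm_real, br_norm hχ, mul_comm (1 / 2 : ℝ)]
      exact mul_le_mul_of_nonneg_left (hA _ hz) (hχ.lo _)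
  rw [integral_const_mul, e1] at h2
  have h3 : 0 ≤ ∫ z : V m, br χ δ (mt z) ∂(hm m) := integral_nonneg fun z => hχ.lo _
  have h4 : ‖((∫ z : V m, br χ δ (mt z) ∂(hm m) : ℝ) : ℂ)‖ =
      ∫ z : V m, br χ δ (mt z) ∂(hm m) := by
    rw [Complex.norm_real, Real.norm_of_nonneg h3]
  have h5 := norm_sub_norm_le ((∫ z : V m, br χ δ (mt z) ∂(hm m) : ℝ) : ℂ)
    (∫ z : V m, bump m χ δ (mt z) * pw mu (mt z) ∂(hm m))
  rw [norm_sub_rev, h4] at h5
  linarith

end Pool.Agent.H27.L1.H62.GHY
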