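import Pool.Agent.H27.L1.H62.GHY.SPLA
import Pool.Agent.H27.L1.H91.GA.RRN
import Pool.Agent.H27.L1.H74.GA.RRA
import Pool.Agent.H27.L1.H83.GA.CFB

/-!
Row SPL of the board ghy, part B: convolution operators on the whole group.
-/

set_option autoImplicit false

namespace Pool.Agent.H27.L1.H62.GHY

open MeasureTheory Filter
open Pool.Agent.H27.L1.H34.GM Pool.Agent.H27.L1.H34.GZ Pool.Agent.H27.L1.H34.GU Pool.Agent.H27.L1.H34.GA
open Pool.Agent.H27.L1.H90.GA (sz_nn le_sz sz_le sz_mul inv_near det_inv_ne)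
open Pool.Agent.H27.L1.H46.GU (cs cR_det fz wd fz_eq fz_meas fn_meas wd_meas prod_meas dom_det)
open Pool.Agent.H27.L1.H91.GA (csw tr tr_meas fz_tr rrn_inv rrn_scal rrn_mass inv_det)
open Pool.Agent.H27.L1.H74.GA (tg_bd det_nz)
open scoped ENNReal

/-- the sum over `x` -/
theorem conv_sum (hM : T_MSR) {m N : ℕ} [NeZero N] {a : V m → ℝ≥0∞} (ha : Measurable a)
    {F : Mat m → VN m N → ℂ} (hc : ∀ x, ContinuousOn (fun g => F g x) {g | g.det ≠ 0})
    (L : ℝ≥0∞) (z : V m) :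
    ∑ x : VN m N, L * ∫⁻ v, a v * ENNReal.ofReal ‖fz F x (tr z v)‖ ^ 2 ∂(hm m) =
      L * ∫⁻ v, a v * wd F (tr z v) ∂(hm m) := by
  have hmz : ∀ x : VN m N, Measurable fun v : V m => ENNReal.ofReal ‖fz F x (tr z v)‖ :=
    fun x => (fn_meas hM hc x).comp ((tr_meas hM m).comp (measurable_const.prodMk measurable_id))
  have hmy : ∀ x : VN m N, Measurable fun v : V m =>
      a v * ENNReal.ofReal ‖fz F x (tr z v)‖ ^ 2 :=
    fun x => ha.mul ((hmz x).pow_const 2)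
  rw [← Finset.mul_sum, ← lintegral_finsetSum _ fun x _ => hmy x]
  congr 1
  refine lintegral_congr fun v => ?_
  rw [← Finset.mul_sum]
  rfl

/-- the pointwise bound -/
theorem conv_pt (hM : T_MSR) {m N : ℕ} {a : V m → ℝ≥0∞} (ha : Measurable a)
    {F : Mat m → VN m N → ℂ} (hc : ∀ x, ContinuousOn (fun g => F g x) {g | g.det ≠ 0})
    (x : VN m N) (z : V m) (G : ℝ≥0∞)
    (hG : G ≤ ∫⁻ v, a v * ENNReal.ofReal ‖fz F x (tr z v)‖ ∂(hm m)) :
    G ^ 2 ≤ (∫⁻ v, a v ∂(hm m)) * ∫⁻ v, a v *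
        ENNReal.ofReal ‖fz F x (tr z v)‖ ^ 2 ∂(hm m) := by
  have hmz : Measurable fun v : V m => ENNReal.ofReal ‖fz F x (tr z v)‖ :=
    (fn_meas hM hc x).comp ((tr_meas hM m).comp (measurable_const.prodMk measurable_id))
  exact (pow_le_pow_left' hG 2).trans (csw _ ha hmz)

/-- almost all matrices are regular -/
theorem ae_det (hH : T_HAR) {m : ℕ} (hm1 : 1 ≤ m) : ∀ᵐ v : V m ∂(hm m), (mt v).det ≠ 0 := by
  rw [ae_iff]
  simpa using (hH m hm1).2.2.1

/-- the norm of a convolution on the whole group -/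
theorem conv_norm (hR : T_RTI) (hA : T_ALU) (hM : T_MSR) (hH : T_HAR) {m N : ℕ} [NeZero N]
    {T : ℕ → Finset (ZM m)} {D : Set (V m)} (hS : SysZ m N T D) {F : Mat m → VN m N → ℂ}
    {lam : ℕ → ℂ} (hF : HecA m N T F lam) {a : V m → ℝ≥0∞} (ha : Measurable a)
    {G : VN m N → V m → ℝ≥0∞}
    (hG : ∀ x, ∀ z ∈ D, G x z ≤ ∫⁻ v, a v * ENNReal.ofReal ‖fz F x (tr z v)‖ ∂(hm m)) :
    ∑ x, ∫⁻ z in D, (G x z) ^ 2 ∂(hm m) ≤
      (∫⁻ v, a v ∂(hm m)) ^ 2 * ∑ x, ∫⁻ z in D, ENNReal.ofReal (‖F (mt z) x‖ ^ 2) ∂(hm m) := by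
  have hm1 := hS.one_le
  have hD := hS.dom
  obtain ⟨-, -, -, -, hσ, -, -, -⟩ := hM.1 m
  have hbij := (hA m N hm1 hS.two_le).2.2.2.2.2
  have hmp : ∀ x : VN m N, Measurable fun p : V m × V m =>
      ENNReal.ofReal ‖fz F x (tr p.1 p.2)‖ := fun x =>
    (fn_meas hM hF.cont x).comp (tr_meas hM m)
  have hW : Measurable fun p : V m × V m => a p.2 * wd F (tr p.1 p.2) :=
    (ha.comp measurable_snd).mul ((wd_meas hM hF.cont).comp (tr_meas hM m))
  have h0 := ae_det hH hm1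
  have h5 : ∀ v : V m, (mt v).det ≠ 0 → ∫⁻ z in D, wd F (tr z v) ∂(hm m) =
      ∫⁻ z in D, wd F z ∂(hm m) := by
    intro v hv
    exact hR m hm1 D hD (wd F) (wd_meas hM hF.cont)
      (fun γ hγ z hz => rrn_inv hF hγ (hbij γ hγ) hz) (fun c hc z hz => rrn_scal hF hc hz)
      (mt v)⁻¹ (inv_det hv)
  rw [rrn_mass hM hm1 hD hF.cont]
  calc ∑ x, ∫⁻ z in D, (G x z) ^ 2 ∂(hm m)
      ≤ ∑ x, ∫⁻ z in D, (∫⁻ v, a v ∂(hm m)) * ∫⁻ v, a v *
        ENNReal.ofReal ‖fz F x (tr z v)‖ ^ 2 ∂(hm m) ∂(hm m) :=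
        Finset.sum_le_sum fun x _ => setLIntegral_mono' hD.meas fun z hz =>
          conv_pt hM ha hF.cont x z (G x z) (hG x z hz)
    _ = ∫⁻ z in D, (∫⁻ v, a v ∂(hm m)) * ∫⁻ v, a v * wd F (tr z v) ∂(hm m) ∂(hm m) := by
        rw [← lintegral_finsetSum]
        · exact lintegral_congr fun z => conv_sum hM ha hF.cont _ z
        · intro x _
          refine Measurable.const_mul ?_ _
          exact Measurable.lintegral_prod_right' (f := fun p : V m × V m => a p.2 *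
              ENNReal.ofReal ‖fz F x (tr p.1 p.2)‖ ^ 2)
            ((ha.comp measurable_snd).mul ((hmp x).pow_const 2))
    _ = (∫⁻ v, a v ∂(hm m)) * ∫⁻ z in D, ∫⁻ v, a v * wd F (tr z v) ∂(hm m) ∂(hm m) :=
        lintegral_const_mul _ (Measurable.lintegral_prod_right' hW)
    _ = (∫⁻ v, a v ∂(hm m)) * ∫⁻ v, ∫⁻ z in D, a v * wd F (tr z v) ∂(hm m) ∂(hm m) := by
        rw [lintegral_lintegral_swap hW.aemeasurable]
    _ = (∫⁻ v, a v ∂(hm m)) * ∫⁻ v, a v * ∫⁻ z in D, wd F z ∂(hm m) ∂(hm m) := by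
        congr 1
        refine lintegral_congr_ae ?_
        filter_upwards [h0] with v hv
        have h6 : Measurable fun z : V m => wd F (tr z v) := (wd_meas hM hF.cont).comp
          ((tr_meas hM m).comp (measurable_id.prodMk measurable_const))
        rw [lintegral_const_mul _ h6, h5 v hv]
    _ = (∫⁻ v, a v ∂(hm m)) ^ 2 * ∫⁻ z in D, wd F z ∂(hm m) := by
        rw [lintegral_mul_const _ ha, sq, mul_assoc]

/-- translates of test functions -/
theorem tg_tr {m : ℕ} {k : Mat m → ℂ} (hk : Tg m k) {w : Mat m} (hw : w.det ≠ 0) :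
    Tg m (fun z => k (z * w)) := by
  obtain ⟨c, hc, hs⟩ := hk.supp
  refine ⟨hk.cont.comp (continuous_id.matrix_mul continuous_const), ?_⟩
  have hwp : 0 < |w.det| := abs_pos.2 hw
  have h0 : 0 ≤ m * c * sz w⁻¹ := by
    have := sz_nn w⁻¹
    positivity
  refine ⟨1 + m * c * sz w⁻¹ + c * |w.det|, by positivity, fun z hz => ?_⟩
  obtain ⟨h1, h2⟩ := hs _ hz
  constructor
  · have h3 : z = z * w * w⁻¹ := (Matrix.mul_nonsing_inv_cancel_right _ _
      (isUnit_iff_ne_zero.2 hw)).symm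
    calc sz z = sz (z * w * w⁻¹) := by rw [← h3]
      _ ≤ m * sz (z * w) * sz w⁻¹ := sz_mul _ _
      _ ≤ m * c * sz w⁻¹ := by
          apply mul_le_mul_of_nonneg_right _ (sz_nn _)
          exact mul_le_mul_of_nonneg_left h1 (Nat.cast_nonneg _)
      _ ≤ _ := by nlinarith
  · rw [Matrix.det_mul, abs_mul] at h2
    have h3 : (c * |w.det|)⁻¹ ≤ |z.det| := by
      rw [mul_inv]
      calc c⁻¹ * |w.det|⁻¹ ≤ (|z.det| * |w.det|) * |w.det|⁻¹ :=
            mul_le_mul_of_nonneg_right h2 (by positivity)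
        _ = |z.det| := by field_simp
    refine le_trans ?_ h3
    apply inv_anti₀ (by positivity)
    nlinarith

/-- integrability -/
theorem conv_int (hM : T_MSR) (hH : T_HAR) {m N : ℕ} (hm1 : 1 ≤ m) {k : Mat m → ℂ} (hk : Tg m k)
    {F : Mat m → VN m N → ℂ} (hF : ∀ x, ContinuousOn (fun g => F g x) {g | g.det ≠ 0}) {B : ℝ}
    (hB : ∀ (g : Mat m) (x : VN m N), g.det ≠ 0 → ‖F g x‖ ≤ B) (x : VN m N) {g : Mat m}
    (hg : g.det ≠ 0) :
    Integrable (fun z : V m => k (mt z) * F (g * (mt z)⁻¹) x) (hm m) := by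
  obtain ⟨c, hc, hs⟩ := hk.supp
  obtain ⟨M, hM0, hMb⟩ := tg_bd hk
  obtain ⟨-, hdet, -, hszm, -, -, -, hcm⟩ := hM.1 m
  have hB0 : 0 ≤ B := (norm_nonneg _).trans (hB g x hg)
  have hkm := hcm k hk.cont
  have hne : ∀ z : V m, k (mt z) ≠ 0 → (mt z).det ≠ 0 := by
    intro z hz h0
    have h1 := (hs _ hz).2
    rw [h0, abs_zero] at h1
    have : 0 < c⁻¹ := by positivity
    linarith
  set gV : V m := fun i j => g i j with hgV
  have hgg : mt gV = g := rfl
  have e1 : (fun z : V m => k (mt z) * F (g * (mt z)⁻¹) x) =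
      fun z => k (mt z) * fz F x (tr gV z) := by
    funext z
    by_cases hz : k (mt z) = 0
    · rw [hz, zero_mul, zero_mul]
    · rw [fz_tr F x (z := gV) hg (hne z hz)]
      rfl
  have hmz : Measurable fun z : V m => fz F x (tr gV z) :=
    (fz_meas hM hF x).comp ((tr_meas hM m).comp (measurable_const.prodMk measurable_id))
  set K : Set (V m) := {z | sz (mt z) ≤ c ∧ c⁻¹ ≤ |(mt z).det|} with hK
  have hKm : MeasurableSet K :=
    (measurableSet_le hszm measurable_const).inter (measurableSet_le measurable_const hdet.norm)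
  have hKf : hm m K < ⊤ := (hH m hm1).2.2.2 c hc
  have hi : Integrable (K.indicator (fun _ : V m => M * B)) (hm m) := by
    rw [integrable_indicator_iff hKm]
    exact integrableOn_const hKf.ne
  refine hi.mono' ?_ (Eventually.of_forall fun z => ?_)
  · rw [e1]
    exact (hkm.mul hmz).aestronglyMeasurable
  · by_cases hz : k (mt z) = 0
    · rw [hz, zero_mul, norm_zero]
      exact Set.indicator_nonneg (fun _ _ => by positivity) _
    · have hzK : z ∈ K := hs _ hz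
      rw [Set.indicator_of_mem hzK, norm_mul]
      have h2 : (g * (mt z)⁻¹).det ≠ 0 := det_nz hg (hne z hz)
      exact mul_le_mul (hMb _) (hB _ x h2) (norm_nonneg _) hM0

/-- the difference as a convolution -/
theorem arch_diff (hM : T_MSR) (hH : T_HAR) (hHC : T_HAC) {m N : ℕ} [NeZero N] (hm1 : 1 ≤ m)
    {T : ℕ → Finset (ZM m)} {F : Mat m → VN m N → ℂ} {lam : ℕ → ℂ} {mu : Fin m → ℂ}
    (hE : EigU m N T F lam mu) {k : Mat m → ℂ} (hk : Tst m k) (x : VN m N) {g w : Mat m}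
    (hg : g.det ≠ 0) (hw : w.det ≠ 0) :
    (F (g * w) x - F g x) * ∫ z, k (mt z) * pw mu (mt z) ∂(hm m) =
      ∫ z : V m, (k ((mt z : Mat m) * w) - k (mt z)) * F (g * (mt z)⁻¹) x ∂(hm m) := by
  have hkT : Tg m k := ⟨hk.cont, hk.supp⟩
  obtain ⟨B, hB⟩ := hE.bdd
  have h1 := hE.arch k hk (g * w) x (by rw [Matrix.det_mul]; exact mul_ne_zero hg hw)
  have h2 := hE.arch k hk g x hg
  have h3 := ((hHC m hm1).1 w hw (fun z : V m => k (mt z) * F (g * w * (mt z)⁻¹) x)).2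
  have h4 : (fun z : V m => (fun z : V m => k (mt z) * F (g * w * (mt z)⁻¹) x)
      (fun i j => (mt z * w) i j)) = fun z : V m =>
        k ((mt z : Mat m) * w) * F (g * (mt z)⁻¹) x := by
    funext z
    show k ((mt z : Mat m) * w) * F (g * w * ((mt z : Mat m) * w)⁻¹) x = _
    rw [Matrix.mul_inv_rev, ← Matrix.mul_assoc, Matrix.mul_assoc g w w⁻¹,
      Matrix.mul_nonsing_inv _ (isUnit_iff_ne_zero.2 hw), Matrix.mul_one]
  rw [h4] at h3
  rw [sub_mul, ← h1, ← h2, ← h3]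
  rw [← integral_sub (conv_int hM hH hm1 (tg_tr hkT hw) hE.cont hB x hg)
    (conv_int hM hH hm1 hkT hE.cont hB x hg)]
  refine integral_congr_ae (Eventually.of_forall fun z => ?_)
  show k ((mt z : Mat m) * w) * F (g * (mt z)⁻¹) x - k (mt z) * F (g * (mt z)⁻¹) x = _
  ring

end Pool.Agent.H27.L1.H62.GHY
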