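import Pool.Agent.H27.L1.H62.GHY.SPLC

/-!
Row SPL of the board ghy, part D: the norms.
-/

set_option autoImplicit false

namespace Pool.Agent.H27.L1.H62.GHY

open MeasureTheory Filter
open Pool.Agent.H27.L1.H34.GM Pool.Agent.H27.L1.H34.GZ Pool.Agent.H27.L1.H34.GU Pool.Agent.H27.L1.H34.GA
open Pool.Agent.H27.L1.H90.GA (sz_nn le_sz sz_le sz_mul inv_near det_inv_ne meas_F meas_F1 fin_D int_sq
  det_ne_D)
open Pool.Agent.H27.L1.H46.GU (cs cR_det fz wd fz_eq fz_meas fn_meas wd_meas prod_meas dom_det)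
open Pool.Agent.H27.L1.H91.GA (csw tr tr_meas fz_tr rrn_inv rrn_scal rrn_mass inv_det)
open Pool.Agent.H27.L1.H74.GA (tg_bd det_nz)
open scoped ENNReal

/-- the square of the norm as a lower integral -/
theorem sq_lint {m N : ℕ} [NeZero N] {D : Set (V m)} (f : VN m N → V m → ℂ)
    (hi : ∀ x, Integrable (fun z => ‖f x z‖ ^ 2) ((hm m).restrict D)) :
    ENNReal.ofReal (∑ x, ∫ z in D, ‖f x z‖ ^ 2 ∂(hm m)) =
      ∑ x, ∫⁻ z in D, (ENNReal.ofReal ‖f x z‖) ^ 2 ∂(hm m) := by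
  rw [ENNReal.ofReal_sum_of_nonneg fun x _ => integral_nonneg fun z => by positivity]
  refine Finset.sum_congr rfl fun x _ => ?_
  rw [ofReal_integral_eq_lintegral_ofReal (hi x) (Eventually.of_forall fun z => by positivity)]
  refine lintegral_congr fun z => ?_
  rw [ENNReal.ofReal_pow (norm_nonneg _)]

theorem int_w (hVL : T_VLM) {m N : ℕ} [NeZero N] {T : ℕ → Finset (ZM m)} {D : Set (V m)}
    (hS : SysZ m N T D) {F : Mat m → VN m N → ℂ} {lam : ℕ → ℂ} (hF : HecA m N T F lam)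
    {w : Mat m} (hw : w.det ≠ 0) (x : VN m N) :
    Integrable (fun z => ‖F ((mt z : Mat m) * w) x‖ ^ 2) ((hm m).restrict D) := by
  have hm1 := hS.one_le
  have hD := hS.dom
  have hfin := fin_D hVL hm1 hD
  obtain ⟨B, hB⟩ := hF.bdd
  refine int_sq hD (meas_F hm1 hD (hF.cont x) hw) (A := B) fun z hz => hB _ x ?_
  rw [Matrix.det_mul]
  exact mul_ne_zero (det_ne_D hm1 hD hz) hw

theorem int_d (hVL : T_VLM) {m N : ℕ} [NeZero N] {T : ℕ → Finset (ZM m)} {D : Set (V m)}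
    (hS : SysZ m N T D) {F : Mat m → VN m N → ℂ} {lam : ℕ → ℂ} (hF : HecA m N T F lam)
    {w : Mat m} (hw : w.det ≠ 0) (x : VN m N) :
    Integrable (fun z => ‖F ((mt z : Mat m) * w) x - F (mt z) x‖ ^ 2) ((hm m).restrict D) := by
  have hm1 := hS.one_le
  have hD := hS.dom
  have hfin := fin_D hVL hm1 hD
  obtain ⟨B, hB⟩ := hF.bdd
  refine int_sq hD ((meas_F hm1 hD (hF.cont x) hw).sub (meas_F1 hm1 hD (hF.cont x)))
    (A := B + B) fun z hz => ?_
  refine (norm_sub_le _ _).trans (add_le_add (hB _ x ?_) (hB _ x (det_ne_D hm1 hD hz)))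
  rw [Matrix.det_mul]
  exact mul_ne_zero (det_ne_D hm1 hD hz) hw

theorem int_o (hVL : T_VLM) {m N : ℕ} [NeZero N] {T : ℕ → Finset (ZM m)} {D : Set (V m)}
    (hS : SysZ m N T D) {F : Mat m → VN m N → ℂ} {lam : ℕ → ℂ} (hF : HecA m N T F lam)
    (x : VN m N) :
    Integrable (fun z => ‖F (mt z) x‖ ^ 2) ((hm m).restrict D) := by
  have hm1 := hS.one_le
  have hD := hS.dom
  have hfin := fin_D hVL hm1 hD
  obtain ⟨B, hB⟩ := hF.bdd
  exact int_sq hD (meas_F1 hm1 hD (hF.cont x)) (A := B) fun z hz => hB _ x (det_ne_D hm1 hD hz)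

/-- the trivial bound -/
theorem lip_triv (hVL : T_VLM) (hRTI : T_RTI) (hALU : T_ALU) {m N : ℕ} [NeZero N]
    {T : ℕ → Finset (ZM m)} {D : Set (V m)}
    (hS : SysZ m N T D) {F : Mat m → VN m N → ℂ} {lam : ℕ → ℂ} (hF : HecA m N T F lam)
    {w : Mat m} (hw : w.det ≠ 0) :
    ∑ x, ∫ z in D, ‖F ((mt z : Mat m) * w) x - F (mt z) x‖ ^ 2 ∂(hm m) ≤ 4 * nU D F := by
  have h1 := Pool.Agent.H27.L1.H83.GA.cfb_right hVL hRTI hALU hS hF (det_inv_ne hw)
  obtain ⟨h0, -, h2⟩ := h1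
  rw [Matrix.nonsing_inv_nonsing_inv _ (isUnit_iff_ne_zero.2 hw)] at h2
  have hi := int_w hVL hS hF hw
  have h3 : ∑ x, ∫ z in D, ‖F ((mt z : Mat m) * w) x‖ ^ 2 ∂(hm m) = nU D F := by
    rw [← integral_finsetSum _ fun x _ => hi x]
    have h4 : 0 ≤ ∫ z in D, ∑ x : VN m N, ‖F ((mt z : Mat m) * w) x‖ ^ 2 ∂(hm m) :=
      integral_nonneg fun z => Finset.sum_nonneg fun x _ => by positivity
    rw [← ENNReal.toReal_ofReal h4, ← ENNReal.toReal_ofReal h0, ← h2,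
      ofReal_integral_eq_lintegral_ofReal (integrable_finsetSum _ fun x _ => hi x)
      (Eventually.of_forall fun z => Finset.sum_nonneg fun x _ => by positivity)]
  calc ∑ x, ∫ z in D, ‖F ((mt z : Mat m) * w) x - F (mt z) x‖ ^ 2 ∂(hm m)
      ≤ ∑ x, ∫ z in D, (2 * ‖F ((mt z : Mat m) * w) x‖ ^ 2 + 2 * ‖F (mt z) x‖ ^ 2) ∂(hm m) := by
        refine Finset.sum_le_sum fun x _ => ?_
        refine integral_mono (int_d hVL hS hF hw x)
          (((hi x).const_mul 2).add ((int_o hVL hS hF x).const_mul 2)) fun z => ?_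
        show ‖F ((mt z : Mat m) * w) x - F (mt z) x‖ ^ 2 ≤
          2 * ‖F ((mt z : Mat m) * w) x‖ ^ 2 + 2 * ‖F (mt z) x‖ ^ 2
        have h5 := norm_sub_le (F ((mt z : Mat m) * w) x) (F (mt z) x)
        have h6 := norm_nonneg (F ((mt z : Mat m) * w) x - F (mt z) x)
        nlinarith [sq_nonneg (‖F ((mt z : Mat m) * w) x‖ - ‖F (mt z) x‖)]
    _ = 2 * (∑ x, ∫ z in D, ‖F ((mt z : Mat m) * w) x‖ ^ 2 ∂(hm m)) +
        2 * ∑ x, ∫ z in D, ‖F (mt z) x‖ ^ 2 ∂(hm m) := by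
        rw [Finset.mul_sum, Finset.mul_sum, ← Finset.sum_add_distrib]
        refine Finset.sum_congr rfl fun x _ => ?_
        rw [integral_add ((hi x).const_mul 2) ((int_o hVL hS hF x).const_mul 2),
          integral_const_mul, integral_const_mul]
    _ = 4 * nU D F := by
        rw [h3]
        unfold nU
        ring

/-- the weight of the convolution -/
noncomputable def aw {m : ℕ} (χ : ℝ → ℝ) (δ : ℝ) (w : Mat m) (v : V m) : ℝ≥0∞ :=
  ENNReal.ofReal ‖bump m χ δ ((mt v : Mat m) * w) - bump m χ δ (mt v)‖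

theorem aw_meas (hM : T_MSR) {m : ℕ} {χ : ℝ → ℝ} {δ : ℝ} (hk : Tst m (bump m χ δ)) (w : Mat m) :
    Measurable (aw χ δ w) := by
  obtain ⟨-, -, -, -, -, -, -, hcm⟩ := hM.1 m
  have h1 := hcm (fun z => bump m χ δ (z * w) - bump m χ δ z)
    ((hk.cont.comp (continuous_id.matrix_mul continuous_const)).sub hk.cont)
  exact h1.norm.ennreal_ofReal

/-- the total weight -/
theorem aw_mass {m : ℕ} {χ : ℝ → ℝ} {δ : ℝ} (w : Mat m) {L CD : ℝ} (hL : 0 ≤ L) (hCD : 0 ≤ CD)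
    (hlip : ∀ z : Mat m, |br χ δ (z * w) - br χ δ z| ≤ L ∧
      (br χ δ (z * w) - br χ δ z ≠ 0 → sf z ≤ (4 * δ) ^ 2))
    (hfin : hm m (nb m (δ / 4)) < ⊤)
    (hdb : hm m (nb m (4 * δ)) ≤ ENNReal.ofReal CD * hm m (nb m (δ / 4))) :
    ∫⁻ v, aw χ δ w v ∂(hm m) ≤ ENNReal.ofReal (L * CD * (hm m (nb m (δ / 4))).toReal) := by
  have h1 : ∀ v : V m, aw χ δ w v ≤ (nb m (4 * δ)).indicator (fun _ => ENNReal.ofReal L) v := by
    intro v
    obtain ⟨h2, h3⟩ := hlip (mt v)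
    have e1 : aw χ δ w v = ENNReal.ofReal |br χ δ ((mt v : Mat m) * w) - br χ δ (mt v)| := by
      unfold aw
      rw [bump_br, bump_br, ← Complex.ofReal_sub, Complex.norm_real, Real.norm_eq_abs]
    rw [e1]
    by_cases h0 : br χ δ ((mt v : Mat m) * w) - br χ δ (mt v) = 0
    · rw [h0, abs_zero, ENNReal.ofReal_zero]
      exact zero_le
    · have hv : v ∈ nb m (4 * δ) := h3 h0
      rw [Set.indicator_of_mem hv]
      exact ENNReal.ofReal_le_ofReal h2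
  calc ∫⁻ v, aw χ δ w v ∂(hm m)
      ≤ ∫⁻ v, (nb m (4 * δ)).indicator (fun _ => ENNReal.ofReal L) v ∂(hm m) :=
        lintegral_mono h1
    _ = ENNReal.ofReal L * hm m (nb m (4 * δ)) := by
        rw [lintegral_indicator (nb_meas m _), setLIntegral_const]
    _ ≤ ENNReal.ofReal L * (ENNReal.ofReal CD * hm m (nb m (δ / 4))) := mul_le_mul_right hdb _
    _ = _ := by
        rw [ENNReal.ofReal_mul (by positivity), ENNReal.ofReal_mul hL,
          ENNReal.ofReal_toReal hfin.ne, mul_assoc]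

/-- the pointwise bound -/
theorem aw_pt (hM : T_MSR) (hH : T_HAR) (hHC : T_HAC) {m N : ℕ} [NeZero N] (hm1 : 1 ≤ m)
    {T : ℕ → Finset (ZM m)} {F : Mat m → VN m N → ℂ} {lam : ℕ → ℂ} {mu : Fin m → ℂ}
    (hE : EigU m N T F lam mu) {χ : ℝ → ℝ} {δ : ℝ} (hk : Tst m (bump m χ δ)) (x : VN m N)
    {z : V m} {w : Mat m} (hz : (mt z).det ≠ 0) (hw : w.det ≠ 0) :
    ENNReal.ofReal (‖∫ z : V m, bump m χ δ (mt z) * pw mu (mt z) ∂(hm m)‖ *
      ‖F ((mt z : Mat m) * w) x - F (mt z) x‖) ≤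
      ∫⁻ v, aw χ δ w v * ENNReal.ofReal ‖fz F x (tr z v)‖ ∂(hm m) := by
  rw [← norm_mul, mul_comm, arch_diff hM hH hHC hm1 hE hk x hz hw, ofReal_norm]
  refine (enorm_integral_le_lintegral_enorm _).trans (le_of_eq ?_)
  refine lintegral_congr_ae ?_
  filter_upwards [ae_det hH hm1] with v hv
  rw [fz_tr F x hz hv, enorm_mul, ofReal_norm]
  congr 1
  exact (ofReal_norm _).symm

end Pool.Agent.H27.L1.H62.GHY
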